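import Pool.Agent.Helper69_SER.Stmts

/-!
# Basic lemmas of squad SER: uniserial modules, subquotients, the ideal `HI`.
-/

set_option autoImplicit false

namespace SER

open Function

section chain

variable {R : Type} [Ring R] {X : Type} [AddCommGroup X] [Module R X]
  {Y : Type} [AddCommGroup Y] [Module R Y] {Z : Type} [AddCommGroup Z] [Module R Z]

/-- (u1) -/
theorem inj_or_of_add (hX : Chain R X) {f g : X →ₗ[R] Y} (h : Injective (f + g)) :
    Injective f ∨ Injective g := by
  rcases hX (LinearMap.ker f) (LinearMap.ker g) with h1 | h1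
  · left
    rw [← LinearMap.ker_eq_bot] at h ⊢
    rw [eq_bot_iff] at h ⊢
    intro x hx
    apply h
    have hg := h1 hx
    rw [LinearMap.mem_ker] at hx hg ⊢
    simp [hx, hg]
  · right
    rw [← LinearMap.ker_eq_bot] at h ⊢
    rw [eq_bot_iff] at h ⊢
    intro x hx
    apply h
    have hg := h1 hx
    rw [LinearMap.mem_ker] at hx hg ⊢
    simp [hx, hg]

/-- (u1) for differences -/
theorem inj_or_of_sub (hX : Chain R X) {f g : X →ₗ[R] Y} (h : Injective (f - g)) :
    Injective f ∨ Injective g := by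
  rw [sub_eq_add_neg] at h
  rcases inj_or_of_add hX h with h1 | h1
  · exact Or.inl h1
  · right
    intro x y hxy
    apply h1
    simp [hxy]

/-- (u1) if `f` is injective and `g` is not then `f + g` is injective. -/
theorem inj_add (hX : Chain R X) {f g : X →ₗ[R] Y} (hf : Injective f) (hg : ¬ Injective g) :
    Injective (f + g) := by
  have : f = (f + g) - g := by simp
  rw [this] at hf
  exact (inj_or_of_sub hX hf).resolve_right hg

theorem inj_sub (hX : Chain R X) {f g : X →ₗ[R] Y} (hf : Injective f) (hg : ¬ Injective g) :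
    Injective (f - g) := by
  have : f = (f - g) + g := by simp
  rw [this] at hf
  exact (inj_or_of_add hX hf).resolve_right hg

/-- (u2) -/
theorem surj_or_of_add (hY : Chain R Y) {f g : X →ₗ[R] Y} (h : Surjective (f + g)) :
    Surjective f ∨ Surjective g := by
  rcases hY (LinearMap.range f) (LinearMap.range g) with h1 | h1
  · right
    intro y
    obtain ⟨x, rfl⟩ := h y
    have h2 : f x ∈ LinearMap.range g := h1 ⟨x, rfl⟩
    obtain ⟨z, hz⟩ := h2
    exact ⟨z + x, by simp [hz]⟩
  · left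
    intro y
    obtain ⟨x, rfl⟩ := h y
    have h2 : g x ∈ LinearMap.range f := h1 ⟨x, rfl⟩
    obtain ⟨z, hz⟩ := h2
    exact ⟨x + z, by simp [hz]⟩

theorem surj_or_of_sub (hY : Chain R Y) {f g : X →ₗ[R] Y} (h : Surjective (f - g)) :
    Surjective f ∨ Surjective g := by
  rw [sub_eq_add_neg] at h
  rcases surj_or_of_add hY h with h1 | h1
  · exact Or.inl h1
  · right
    intro y
    obtain ⟨x, hx⟩ := h1 (-y)
    exact ⟨x, by simpa using hx⟩

/-- (u2) if `f` is surjective and `g` is not then `f + g` is surjective. -/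
theorem surj_add (hY : Chain R Y) {f g : X →ₗ[R] Y} (hf : Surjective f) (hg : ¬ Surjective g) :
    Surjective (f + g) := by
  have : f = (f + g) - g := by simp
  rw [this] at hf
  exact (surj_or_of_sub hY hf).resolve_right hg

theorem surj_sub (hY : Chain R Y) {f g : X →ₗ[R] Y} (hf : Surjective f) (hg : ¬ Surjective g) :
    Surjective (f - g) := by
  have : f = (f - g) + g := by simp
  rw [this] at hf
  exact (surj_or_of_add hY hf).resolve_right hg

/-- (u4) mono not epi + epi not mono = bijective -/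
theorem bij_add (hX : Chain R X) (hY : Chain R Y) {f g : X →ₗ[R] Y} (hf : Injective f)
    (hf' : ¬ Surjective f) (hg : Surjective g) (hg' : ¬ Injective g) : Bijective (f + g) := by
  refine ⟨inj_add hX hf hg', ?_⟩
  rw [add_comm]
  exact surj_add hY hg hf'

/-- (u3) -/
theorem inj_of_comp (hX : Nontrivial X) (hY : Chain R Y) {f : X →ₗ[R] Y} {g : Y →ₗ[R] Z}
    (h : Injective (g ∘ₗ f)) : Injective g := by
  rcases hY (LinearMap.range f) (LinearMap.ker g) with h1 | h1
  · exfalso
    obtain ⟨x, hx⟩ := exists_ne (0 : X)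
    apply hx
    apply h
    have : f x ∈ LinearMap.ker g := h1 ⟨x, rfl⟩
    rw [LinearMap.mem_ker] at this
    simp [this]
  · rw [← LinearMap.ker_eq_bot, eq_bot_iff]
    intro y hy
    obtain ⟨x, rfl⟩ := h1 hy
    rw [LinearMap.mem_ker] at hy
    have : x = 0 := h (by simp [hy])
    simp [this]

/-- (u3) -/
theorem surj_of_comp (hZ : Nontrivial Z) (hY : Chain R Y) {f : X →ₗ[R] Y} {g : Y →ₗ[R] Z}
    (h : Surjective (g ∘ₗ f)) : Surjective f := by
  rcases hY (LinearMap.range f) (LinearMap.ker g) with h1 | h1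
  · exfalso
    obtain ⟨z, hz⟩ := exists_ne (0 : Z)
    apply hz
    obtain ⟨x, rfl⟩ := h z
    have : f x ∈ LinearMap.ker g := h1 ⟨x, rfl⟩
    rw [LinearMap.mem_ker] at this
    simp [this]
  · intro y
    obtain ⟨x, hx⟩ := h (g y)
    have : y - f x ∈ LinearMap.ker g := by
      rw [LinearMap.mem_ker]
      simp only [LinearMap.comp_apply] at hx
      simp [hx]
    obtain ⟨x', hx'⟩ := h1 this
    exact ⟨x' + x, by simp [hx']⟩

/-- `Chain` passes to modules which embed -/
theorem Chain.of_inj (hY : Chain R Y) (f : X →ₗ[R] Y) (hf : Injective f) : Chain R X := by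
  intro A B
  rcases hY (A.map f) (B.map f) with h | h
  · exact Or.inl ((Submodule.map_le_map_iff_of_injective hf A B).1 h)
  · exact Or.inr ((Submodule.map_le_map_iff_of_injective hf B A).1 h)

/-- `Chain` passes to quotients -/
theorem Chain.of_surj (hX : Chain R X) (f : X →ₗ[R] Y) (hf : Surjective f) : Chain R Y := by
  intro A B
  rcases hX (A.comap f) (B.comap f) with h | h
  · exact Or.inl ((Submodule.comap_le_comap_iff_of_surjective hf).1 h)
  · exact Or.inr ((Submodule.comap_le_comap_iff_of_surjective hf).1 h)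

/-- a subquotient of a chain module is a chain module -/
theorem Chain.of_sq (hY : Chain R Y) (h : Sq R X Y) : Chain R X := by
  obtain ⟨D, φ, hφ⟩ := h
  exact Chain.of_surj (Chain.of_inj hY D.subtype D.injective_subtype) φ hφ

theorem Uni.of_inj (hX : Nontrivial X) (hY : Uni R Y) (f : X →ₗ[R] Y) (hf : Injective f) :
    Uni R X := ⟨hX, Chain.of_inj hY.2 f hf⟩

theorem Uni.of_surj (hY : Nontrivial Y) (hX : Uni R X) (f : X →ₗ[R] Y) (hf : Surjective f) :
    Uni R Y := ⟨hY, Chain.of_surj hX.2 f hf⟩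

theorem Uni.of_equiv (hX : Uni R X) (e : X ≃ₗ[R] Y) : Uni R Y := by
  haveI := hX.1
  exact ⟨e.symm.toEquiv.nontrivial, Chain.of_surj hX.2 e.toLinearMap e.surjective⟩

end chain

section sq

variable {R : Type} [Ring R] {X : Type} [AddCommGroup X] [Module R X]
  {Y : Type} [AddCommGroup Y] [Module R Y] {Z : Type} [AddCommGroup Z] [Module R Z]

theorem Sq.refl (R : Type) [Ring R] (X : Type) [AddCommGroup X] [Module R X] : Sq R X X :=
  ⟨⊤, (⊤ : Submodule R X).subtype, fun x => ⟨⟨x, trivial⟩, rfl⟩⟩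

/-- a quotient is a subquotient -/
theorem Sq.of_surj (f : Y →ₗ[R] X) (hf : Surjective f) : Sq R X Y :=
  ⟨⊤, f ∘ₗ (⊤ : Submodule R Y).subtype, fun x => by
    obtain ⟨y, rfl⟩ := hf x
    exact ⟨⟨y, trivial⟩, rfl⟩⟩

/-- a submodule is a subquotient -/
theorem Sq.of_inj (f : X →ₗ[R] Y) (hf : Injective f) : Sq R X Y := by
  refine ⟨LinearMap.range f, (LinearEquiv.ofInjective f hf).symm.toLinearMap, ?_⟩
  exact (LinearEquiv.ofInjective f hf).symm.surjective

theorem Sq.trans (h1 : Sq R X Y) (h2 : Sq R Y Z) : Sq R X Z := by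
  obtain ⟨D, φ, hφ⟩ := h1
  obtain ⟨D', φ', hφ'⟩ := h2
  refine ⟨(D.comap φ').map D'.subtype, ?_⟩
  let E : Submodule R D' := D.comap φ'
  let e : E ≃ₗ[R] E.map D'.subtype := Submodule.equivMapOfInjective D'.subtype
    D'.injective_subtype E
  let ψ : E →ₗ[R] D := (φ' ∘ₗ E.subtype).codRestrict D (fun x => x.2)
  refine ⟨φ ∘ₗ ψ ∘ₗ e.symm.toLinearMap, ?_⟩
  intro x
  obtain ⟨d, rfl⟩ := hφ x
  obtain ⟨y, hy⟩ := hφ' d
  refine ⟨e ⟨y, ?_⟩, ?_⟩
  · change φ' y ∈ D
    rw [hy]
    exact d.2
  · simp only [LinearMap.comp_apply, LinearEquiv.coe_coe, LinearEquiv.symm_apply_apply]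
    congr 1
    exact Subtype.ext hy

/-- from submodules `A`, `B` of `X` and a surjection `B → Y` killing `A ⊓ B`: `Y` is a subquotient
of `X ⧸ A`. -/
theorem Sq.quot (A B : Submodule R X) (φ : B →ₗ[R] Y) (hφ : Surjective φ)
    (h : ∀ x : B, (x : X) ∈ A → φ x = 0) : Sq R Y (X ⧸ A) := by
  let q : B →ₗ[R] X ⧸ A := A.mkQ ∘ₗ B.subtype
  have hk : LinearMap.ker q ≤ LinearMap.ker φ := by
    intro x hx
    rw [LinearMap.mem_ker] at hx ⊢
    apply h
    simpa [q] using hx
  let e := q.quotKerEquivRange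
  refine ⟨LinearMap.range q, (LinearMap.ker q).liftQ φ hk ∘ₗ e.symm.toLinearMap, ?_⟩
  intro y
  obtain ⟨b, rfl⟩ := hφ y
  refine ⟨e (Submodule.Quotient.mk b), ?_⟩
  simp

/-- the form of `Sq` with an injective map into a quotient -/
theorem Sq.exists_inj (h : Sq R X Y) : ∃ (A : Submodule R Y) (f : X →ₗ[R] Y ⧸ A),
    Injective f := by
  obtain ⟨D, φ, hφ⟩ := h
  let A : Submodule R Y := (LinearMap.ker φ).map D.subtype
  have hAD : ∀ x : D, (x : Y) ∈ A ↔ φ x = 0 := by
    intro x
    constructor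
    · rintro ⟨z, hz, hzx⟩
      have : z = x := Subtype.ext hzx
      rw [← this]
      exact hz
    · intro hx
      exact ⟨x, hx, rfl⟩
  let q : D →ₗ[R] Y ⧸ A := A.mkQ ∘ₗ D.subtype
  have hk : LinearMap.ker φ ≤ LinearMap.ker q := by
    intro x hx
    rw [LinearMap.mem_ker] at hx ⊢
    simpa [q] using (hAD x).2 hx
  refine ⟨A, (LinearMap.ker φ).liftQ q hk ∘ₗ (φ.quotKerEquivOfSurjective hφ).symm.toLinearMap, ?_⟩
  rw [← LinearMap.ker_eq_bot, eq_bot_iff]
  intro x hx
  obtain ⟨d, rfl⟩ := hφ x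
  rw [LinearMap.mem_ker] at hx
  have h2 : (φ.quotKerEquivOfSurjective hφ).symm (φ d) = Submodule.Quotient.mk d := by
    rw [LinearEquiv.symm_apply_eq]
    rfl
  simp only [LinearMap.comp_apply, LinearEquiv.coe_coe, h2, Submodule.liftQ_apply] at hx
  have h3 : (d : Y) ∈ A := by simpa [q] using hx
  simp [(hAD d).1 h3]

end sq

section hi

variable {R : Type} [Ring R] {N : Type} [AddCommGroup N] [Module R N]
  {X : Type} [AddCommGroup X] [Module R X]
  {Y : Type} [AddCommGroup Y] [Module R Y] {Z : Type} [AddCommGroup Z] [Module R Z]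

theorem HI.single (α : X →ₗ[R] N) (β : N →ₗ[R] Y) : β ∘ₗ α ∈ HI R N X Y :=
  AddSubgroup.subset_closure ⟨α, β, rfl⟩

theorem HI.comp_left {f : X →ₗ[R] Y} (hf : f ∈ HI R N X Y) (g : Y →ₗ[R] Z) :
    g ∘ₗ f ∈ HI R N X Z := by
  induction hf using AddSubgroup.closure_induction with
  | mem f hf =>
    obtain ⟨α, β, rfl⟩ := hf
    rw [← LinearMap.comp_assoc]
    exact HI.single _ _
  | zero =>
    rw [LinearMap.comp_zero]
    exact zero_mem _
  | add f f' _ _ h1 h2 =>
    rw [LinearMap.comp_add]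
    exact add_mem h1 h2
  | neg f _ h1 =>
    rw [LinearMap.comp_neg]
    exact neg_mem h1

theorem HI.comp_right {f : Y →ₗ[R] Z} (hf : f ∈ HI R N Y Z) (g : X →ₗ[R] Y) :
    f ∘ₗ g ∈ HI R N X Z := by
  induction hf using AddSubgroup.closure_induction with
  | mem f hf =>
    obtain ⟨α, β, rfl⟩ := hf
    rw [LinearMap.comp_assoc]
    exact HI.single _ _
  | zero =>
    rw [LinearMap.zero_comp]
    exact zero_mem _
  | add f f' _ _ h1 h2 =>
    rw [LinearMap.add_comp]
    exact add_mem h1 h2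
  | neg f _ h1 =>
    rw [LinearMap.neg_comp]
    exact neg_mem h1

/-- an injective map in `HI` from a chain module: some single composite is injective -/
theorem HI.exists_inj (hX : Chain R X) (hX' : Nontrivial X) {f : X →ₗ[R] Y}
    (hf : f ∈ HI R N X Y) (h : Injective f) :
    ∃ (α : X →ₗ[R] N) (β : N →ₗ[R] Y), Injective (β ∘ₗ α) := by
  revert h
  induction hf using AddSubgroup.closure_induction with
  | mem f hf =>
    obtain ⟨α, β, rfl⟩ := hf
    exact fun h => ⟨α, β, h⟩
  | zero =>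
    intro h
    exfalso
    obtain ⟨x, hx⟩ := exists_ne (0 : X)
    exact hx (h rfl)
  | add f f' _ _ h1 h2 =>
    intro h
    rcases inj_or_of_add hX h with h3 | h3
    · exact h1 h3
    · exact h2 h3
  | neg f _ h1 =>
    intro h
    apply h1
    intro x y hxy
    apply h
    simp [hxy]

/-- a surjective map in `HI` to a chain module: some single composite is surjective -/
theorem HI.exists_surj (hY : Chain R Y) (hY' : Nontrivial Y) {f : X →ₗ[R] Y}
    (hf : f ∈ HI R N X Y) (h : Surjective f) :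
    ∃ (α : X →ₗ[R] N) (β : N →ₗ[R] Y), Surjective (β ∘ₗ α) := by
  revert h
  induction hf using AddSubgroup.closure_induction with
  | mem f hf =>
    obtain ⟨α, β, rfl⟩ := hf
    exact fun h => ⟨α, β, h⟩
  | zero =>
    intro h
    exfalso
    obtain ⟨y, hy⟩ := exists_ne (0 : Y)
    obtain ⟨x, hx⟩ := h y
    exact hy (by simpa using hx.symm)
  | add f f' _ _ h1 h2 =>
    intro h
    rcases surj_or_of_add hY h with h3 | h3
    · exact h1 h3
    · exact h2 h3
  | neg f _ h1 =>
    intro h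
    apply h1
    intro y
    obtain ⟨x, hx⟩ := h (-y)
    exact ⟨x, by simpa using hx⟩

/-- `ZT` transfers along mutual embeddings -/
theorem ZT.transfer (hX : ZT R N X) (f : Y →ₗ[R] X) (g : X →ₗ[R] Y) (hf : Injective f)
    (hg : Injective g) : ZT R N Y := by
  obtain ⟨h, hh, hh'⟩ := hX
  refine ⟨g ∘ₗ h ∘ₗ f, ?_, ?_⟩
  · exact HI.comp_left (HI.comp_right hh f) g
  · intro x y hxy
    exact hf (hh' (hg hxy))

theorem ZT.single (α : X →ₗ[R] N) (β : N →ₗ[R] X) (h : Injective (β ∘ₗ α)) : ZT R N X :=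
  ⟨_, HI.single α β, h⟩

end hi

end SER
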