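import Mathlib

/-!
# Direct summands of serial modules: definitions (squad SER, MP_bd34ba_al, S02905)

Plan with proofs: `/team-store/PLAN_SER.md`.
-/

set_option autoImplicit false

namespace SER

/-- The submodules of `X` form a chain. -/
def Chain (R : Type) [Ring R] (X : Type) [AddCommGroup X] [Module R X] : Prop :=
  ∀ A B : Submodule R X, A ≤ B ∨ B ≤ A

/-- Nonzero uniserial module. -/
def Uni (R : Type) [Ring R] (X : Type) [AddCommGroup X] [Module R X] : Prop :=
  Nontrivial X ∧ Chain R X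

/-- `X` is a subquotient of `Y`. -/
def Sq (R : Type) [Ring R] (X : Type) [AddCommGroup X] [Module R X]
    (Y : Type) [AddCommGroup Y] [Module R Y] : Prop :=
  ∃ (D : Submodule R Y) (φ : D →ₗ[R] X), Function.Surjective φ

/-- The maps `X → Y` which are finite sums of composites `X → N → Y`. -/
def HI (R : Type) [Ring R] (N : Type) [AddCommGroup N] [Module R N]
    (X : Type) [AddCommGroup X] [Module R X] (Y : Type) [AddCommGroup Y] [Module R Y] :
    AddSubgroup (X →ₗ[R] Y) :=
  AddSubgroup.closure {f | ∃ (α : X →ₗ[R] N) (β : N →ₗ[R] Y), f = β ∘ₗ α}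

/-- `X` has an injective endomorphism in `HI R N X X`. -/
def ZT (R : Type) [Ring R] (N : Type) [AddCommGroup N] [Module R N]
    (X : Type) [AddCommGroup X] [Module R X] : Prop :=
  ∃ f ∈ HI R N X X, Function.Injective f

/-- `N` has no uniserial direct summand. -/
def NoUni (R : Type) [Ring R] (N : Type) [AddCommGroup N] [Module R N] : Prop :=
  ∀ (W : Type) [AddCommGroup W] [Module R W], Uni R W →
    ∀ (α : W →ₗ[R] N) (β : N →ₗ[R] W), ¬ Function.Bijective (β ∘ₗ α)

/-- every nonzero direct summand of `N` is decomposable. -/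
def SD (R : Type) [Ring R] (N : Type) [AddCommGroup N] [Module R N] : Prop :=
  ∀ (B : Type) [AddCommGroup B] [Module R B], Nontrivial B →
    ∀ (s : B →ₗ[R] N) (t : N →ₗ[R] B), t ∘ₗ s = LinearMap.id →
      ∃ B₁ B₂ : Submodule R B, IsCompl B₁ B₂ ∧ B₁ ≠ ⊥ ∧ B₂ ≠ ⊥

/-- `N` is a direct summand of the direct sum of the `U i`: maps `a i : U i → N`, `b i : N → U i`
with `n = ∑ a i (b i n)`, a finite sum for each `n`. -/
structure Loc (R : Type) [Ring R] (N : Type) [AddCommGroup N] [Module R N]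
    (ι : Type) (U : ι → ModuleCat.{0} R) where
  a : ∀ i, U i →ₗ[R] N
  b : ∀ i, N →ₗ[R] U i
  fin : ∀ n, {i | b i n ≠ 0}.Finite
  sum : ∀ n, ∀ F : Finset ι, (∀ i, b i n ≠ 0 → i ∈ F) → ∑ i ∈ F, a i (b i n) = n

/-- a finite decomposition `P = ⊕ X k`. -/
structure Dec (R : Type) [Ring R] (P : Type) [AddCommGroup P] [Module R P]
    (J : Type) [Fintype J] (X : J → ModuleCat.{0} R) where
  inc : ∀ k, X k →ₗ[R] P
  pr : ∀ k, P →ₗ[R] X k
  pr_inc : ∀ k x, pr k (inc k x) = x
  pr_inc_ne : ∀ k l, k ≠ l → ∀ x, pr k (inc l x) = 0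
  sum : ∀ x, ∑ k, inc k (pr k x) = x

/-- the axioms (P0)-(P2) for a predicate on elements of modules. -/
structure Big (R : Type) [Ring R] (big : ∀ Y : ModuleCat.{0} R, Y → Prop) : Prop where
  zero : ∀ Y, ¬ big Y 0
  add : ∀ (Y : ModuleCat.{0} R) (x y : Y), big Y (x + y) → big Y x ∨ big Y y
  map : ∀ (Y Z : ModuleCat.{0} R) (g : Y →ₗ[R] Z) (x : Y), big Z (g x) → big Y x

/-- the axiom (P3) for a family of modules. -/
def P3 (R : Type) [Ring R] (N : Type) [AddCommGroup N] [Module R N]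
    (big : ∀ Y : ModuleCat.{0} R, Y → Prop) (J : Type) (X : J → ModuleCat.{0} R) : Prop :=
  ∀ k, ZT R N (X k) → ∀ c : X k →ₗ[R] X k, Function.Surjective c → ∀ x, big (X k) x →
    big (X k) (c x)

/-- The elimination theorem for `n` slots. -/
def ElimAt (R : Type) [Ring R] (N : Type) [AddCommGroup N] [Module R N] (n : ℕ) : Prop :=
  ∀ (big : ∀ Y : ModuleCat.{0} R, Y → Prop), Big R big →
  ∀ (P : Type) [AddCommGroup P] [Module R P] (J : Type) [Fintype J] (X : J → ModuleCat.{0} R),
    Fintype.card J = n → (∀ k, Uni R (X k)) → P3 R N big J X →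
  ∀ (d : Dec R P J X) (E : P →ₗ[R] P), E ∈ HI R N P P → ∀ x, E x = x →
  ∀ k, ¬ big (X k) (d.pr k x)

/-- classes of modules closed under subquotients and (chain) extensions. -/
structure SClass (R : Type) [Ring R] (S : ModuleCat.{0} R → Prop) : Prop where
  sq : ∀ X Y : ModuleCat.{0} R, S Y → Sq R X Y → S X
  ext : ∀ (X : ModuleCat.{0} R) (A : Submodule R X), Chain R X →
    S (ModuleCat.of R A) → S (ModuleCat.of R (X ⧸ A)) → S X

/-- `X` is generated by `Q`: it belongs to every `SClass` containing `Q`. -/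
def Gen (R : Type) [Ring R] (Q : Type) [AddCommGroup Q] [Module R Q]
    (X : Type) [AddCommGroup X] [Module R X] : Prop :=
  ∀ S : ModuleCat.{0} R → Prop, SClass R S → S (ModuleCat.of R Q) → S (ModuleCat.of R X)

/-- The situation after the cluster reduction. -/
def SetC (R : Type) [Ring R] (ι : Type) (U : ι → ModuleCat.{0} R)
    (V : Type) [AddCommGroup V] [Module R V] (f : V →ₗ[R] V) : Prop :=
  Uni R V ∧ Function.Injective f ∧ (∀ i, Gen R (V ⧸ LinearMap.range f) (U i)) ∧
    ∀ i, Sq R (V ⧸ LinearMap.range (f ∘ₗ f)) (U i)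

end SER
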