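import Pool.Agent.Helper69_SER.Defs

/-!
# Direct summands of serial modules: the statements of the modules of squad SER

Plan with proofs: `/team-store/PLAN_SER.md`.  Every statement is a `Prop`.
-/

set_option autoImplicit false

namespace SER

/-! ## Basics (BAS1, BAS2) -/

/-- (H1) -/
def H1Stmt : Prop := ∀ (R : Type) [Ring R] (N : Type) [AddCommGroup N] [Module R N], NoUni R N →
  ∀ (W : Type) [AddCommGroup W] [Module R W], Uni R W → ∀ f ∈ HI R N W W, ∀ g ∈ HI R N W W,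
    Function.Injective f → ¬ Function.Surjective g

/-- (theta lemma) -/
def ThetaStmt : Prop := ∀ (R : Type) [Ring R] (N : Type) [AddCommGroup N] [Module R N],
  NoUni R N → ∀ (V : Type) [AddCommGroup V] [Module R V], Uni R V → ZT R N V →
    ∀ θ : V →ₗ[R] V, Function.Surjective θ → θ - θ ∘ₗ θ ∈ HI R N V V →
      LinearMap.id - θ ∈ HI R N V V

/-- (SL1) -/
def SL1Stmt : Prop := ∀ (R : Type) [Ring R] (Y : Type) [AddCommGroup Y] [Module R Y], Uni R Y →
  ∀ (B : Submodule R Y) (φ : B →ₗ[R] Y), Function.Surjective φ → Nonempty (B ≃ₗ[R] Y)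

/-- (D1) -/
def D1Stmt : Prop := ∀ (R : Type) [Ring R] (X : Type) [AddCommGroup X] [Module R X], Uni R X →
  ∀ (A : Submodule R X) (μ : X →ₗ[R] X ⧸ A), Function.Injective μ →
    ∃ c : X →ₗ[R] X, Function.Surjective c ∧ LinearMap.ker c = A

/-- (D1') a form of (D1): if `X` is a subquotient of `X ⧸ T` then there is a surjective
endomorphism of `X` killing `T`. -/
def D1qStmt : Prop := ∀ (R : Type) [Ring R] (X : Type) [AddCommGroup X] [Module R X], Uni R X →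
  ∀ (T : Submodule R X), Sq R X (X ⧸ T) →
    ∃ c : X →ₗ[R] X, Function.Surjective c ∧ T ≤ LinearMap.ker c

/-- (L1) -/
def L1Stmt : Prop := ∀ (R : Type) [Ring R] (V : Type) [AddCommGroup V] [Module R V]
  (X : Type) [AddCommGroup X] [Module R X] (Y : Type) [AddCommGroup Y] [Module R Y],
  Uni R V → Uni R X → Uni R Y → Sq R X Y →
  ∀ (j : V →ₗ[R] X) (p : V →ₗ[R] Y), Function.Injective j → Function.Surjective p →
    ∃ l : X →ₗ[R] V, Function.Injective l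

/-- (L2) -/
def L2Stmt : Prop := ∀ (R : Type) [Ring R] (V : Type) [AddCommGroup V] [Module R V]
  (X : Type) [AddCommGroup X] [Module R X] (Y : Type) [AddCommGroup Y] [Module R Y],
  Uni R V → Uni R X → Uni R Y → Sq R X Y →
  ∀ (p : X →ₗ[R] V) (j : Y →ₗ[R] V), Function.Surjective p → Function.Injective j →
    ∃ l : V →ₗ[R] X, Function.Surjective l

/-- (cross) -/
def CrossStmt : Prop := ∀ (R : Type) [Ring R] (A : Type) [AddCommGroup A] [Module R A]
  (B : Type) [AddCommGroup B] [Module R B], Uni R A → Uni R B → Sq R A B → Sq R B A →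
  ∃ (W : ModuleCat.{0} R), Uni R W ∧ (∃ f : W →ₗ[R] A, Function.Injective f) ∧
    (∃ f : A →ₗ[R] W, Function.Injective f) ∧ (∃ f : W →ₗ[R] B, Function.Surjective f) ∧
    ∃ f : B →ₗ[R] W, Function.Surjective f

/-! ## The elimination theorem -/

/-- (REDZ) slot `j` is Z-type and the range `V` of its column has a retraction `r`. -/
def RedZStmt : Prop := ∀ (R : Type) [Ring R] (N : Type) [AddCommGroup N] [Module R N],
  NoUni R N → ∀ n : ℕ, ElimAt R N n →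
  ∀ (big : ∀ Y : ModuleCat.{0} R, Y → Prop), Big R big →
  ∀ (P : Type) [AddCommGroup P] [Module R P] (J : Type) [Fintype J] (X : J → ModuleCat.{0} R),
    Fintype.card J = n + 1 → (∀ k, Uni R (X k)) → P3 R N big J X →
  ∀ (d : Dec R P J X) (E : P →ₗ[R] P), E ∈ HI R N P P → ∀ x, E x = x →
  ∀ j : J, ZT R N (X j) → ∀ (V : Type) [AddCommGroup V] [Module R V], Uni R V → ZT R N V →
  ∀ (p : X j →ₗ[R] V) (Y : V →ₗ[R] P) (r : P →ₗ[R] V), Function.Surjective p →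
    (∀ v, d.inc j v - E (d.inc j v) = Y (p v)) → (∀ v, r (Y v) = v) →
  ∀ k, ¬ big (X k) (d.pr k x)

/-- (REDND) slot `j` : `z` kills `x` and is bijective on slot `j`. -/
def RedNDStmt : Prop := ∀ (R : Type) [Ring R] (N : Type) [AddCommGroup N] [Module R N],
  ∀ n : ℕ, ElimAt R N n →
  ∀ (big : ∀ Y : ModuleCat.{0} R, Y → Prop), Big R big →
  ∀ (P : Type) [AddCommGroup P] [Module R P] (J : Type) [Fintype J] (X : J → ModuleCat.{0} R),
    Fintype.card J = n + 1 → (∀ k, Uni R (X k)) → P3 R N big J X →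
  ∀ (d : Dec R P J X) (E : P →ₗ[R] P), E ∈ HI R N P P → ∀ x, E x = x →
  ∀ (j : J) (V : Type) [AddCommGroup V] [Module R V] (z : P →ₗ[R] V), z x = 0 →
    Function.Bijective (z ∘ₗ d.inc j) →
  ∀ k, ¬ big (X k) (d.pr k x)

/-- (REDNM) slots `i ≠ j` not Z-type, `z` kills `x`, is surjective on slot `i` and injective on
slot `j`, and `X i` is a subquotient of `X j`. -/
def RedNMStmt : Prop := ∀ (R : Type) [Ring R] (N : Type) [AddCommGroup N] [Module R N],
  ∀ n : ℕ, ElimAt R N n →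
  ∀ (big : ∀ Y : ModuleCat.{0} R, Y → Prop), Big R big →
  ∀ (P : Type) [AddCommGroup P] [Module R P] (J : Type) [Fintype J] (X : J → ModuleCat.{0} R),
    Fintype.card J = n + 1 → (∀ k, Uni R (X k)) → P3 R N big J X →
  ∀ (d : Dec R P J X) (E : P →ₗ[R] P), E ∈ HI R N P P → ∀ x, E x = x →
  ∀ (i j : J), i ≠ j → ¬ ZT R N (X i) → Sq R (X i) (X j) →
  ∀ (V : Type) [AddCommGroup V] [Module R V], Uni R V → ∀ (z : P →ₗ[R] V), z x = 0 →
    Function.Surjective (z ∘ₗ d.inc i) → Function.Injective (z ∘ₗ d.inc j) →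
    (∃ q : V →ₗ[R] X j, Function.Injective q) →
  ∀ k, ¬ big (X k) (d.pr k x)

/-- the finite cycle lemma. -/
def CycStmt : Prop := ∀ (J : Type) [Finite J] (next : J → J) (r : J → J → Prop) (_j : J),
  (∀ j, next j ≠ j) → (∀ a b c, r a b → r b c → r a c) → (∀ j, r j (next j)) →
  ∃ a, r (next a) a

/-- (ELIM) -/
def ElimStmt : Prop := ∀ (R : Type) [Ring R] (N : Type) [AddCommGroup N] [Module R N],
  NoUni R N → ∀ n, ElimAt R N n

/-- (ELIMN) the elimination theorem in `N`. -/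
def ElimNStmt : Prop := ∀ (R : Type) [Ring R] (N : Type) [AddCommGroup N] [Module R N],
  NoUni R N → ∀ (ι : Type) (U : ι → ModuleCat.{0} R), (∀ i, Uni R (U i)) → Loc R N ι U →
  ∀ (big : ∀ Y : ModuleCat.{0} R, Y → Prop), Big R big → P3 R N big ι U →
  ∀ (X : ModuleCat.{0} R) (β : N →ₗ[R] X) (n : N), ¬ big X (β n)

/-- (K) -/
def KStmt : Prop := ∀ (R : Type) [Ring R] (N : Type) [AddCommGroup N] [Module R N],
  NoUni R N → Nontrivial N → ∀ (ι : Type) (U : ι → ModuleCat.{0} R), (∀ i, Uni R (U i)) →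
  Loc R N ι U → ∃ (i : ι) (α : U i →ₗ[R] N) (β : N →ₗ[R] U i), Function.Injective (β ∘ₗ α)

/-! ## Serre classes -/

/-- (COUNT) -/
def CountStmt : Prop := ∀ (R : Type) [Ring R] (Q : Type) [AddCommGroup Q] [Module R Q]
  (V : Type) [AddCommGroup V] [Module R V], Gen R Q V →
  ∀ f : V →ₗ[R] V, Function.Injective f → Sq R (V ⧸ LinearMap.range f) Q

/-- (KEY) -/
def KeyStmt : Prop := ∀ (R : Type) [Ring R] (N : Type) [AddCommGroup N] [Module R N],
  NoUni R N → ∀ (ι : Type) (U : ι → ModuleCat.{0} R), (∀ i, Uni R (U i)) → Loc R N ι U →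
  ∀ (X : Type) [AddCommGroup X] [Module R X], Uni R X → ∀ (β : N →ₗ[R] X) (n : N)
    (S : ModuleCat.{0} R → Prop), SClass R S →
    S (ModuleCat.of R (X ⧸ Submodule.span R {β n})) → S (ModuleCat.of R X)

/-- (ZP) -/
def ZpStmt : Prop := ∀ (R : Type) [Ring R] (N : Type) [AddCommGroup N] [Module R N],
  NoUni R N → ∀ (ι : Type) (U : ι → ModuleCat.{0} R), (∀ i, Uni R (U i)) → Loc R N ι U →
  ∀ (V : Type) [AddCommGroup V] [Module R V] (W : Type) [AddCommGroup W] [Module R W],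
    Uni R V → ¬ Gen R W V → ∀ (β : N →ₗ[R] V) (g : V →ₗ[R] W), g ∘ₗ β = 0

/-- (GQ) -/
def GQStmt : Prop := ∀ (R : Type) [Ring R] (N : Type) [AddCommGroup N] [Module R N],
  NoUni R N → ∀ (ι : Type) (U : ι → ModuleCat.{0} R), (∀ i, Uni R (U i)) → Loc R N ι U →
  ∀ (V : Type) [AddCommGroup V] [Module R V], Uni R V → ∀ (α : V →ₗ[R] N) (β : N →ₗ[R] V),
    Function.Injective (β ∘ₗ α) → Gen R (V ⧸ LinearMap.range (β ∘ₗ α)) V

/-- (CLU) the cluster reduction. -/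
def CluStmt : Prop := ∀ (R : Type) [Ring R] (N : Type) [AddCommGroup N] [Module R N],
  NoUni R N → Nontrivial N → ∀ (ι : Type) (U : ι → ModuleCat.{0} R), (∀ i, Uni R (U i)) →
  Loc R N ι U →
  ∃ (N' : ModuleCat.{0} R) (s : N' →ₗ[R] N) (t : N →ₗ[R] N') (ι' : Type)
    (U' : ι' → ModuleCat.{0} R) (V : ModuleCat.{0} R) (f : V →ₗ[R] V),
    t ∘ₗ s = LinearMap.id ∧ Nontrivial N' ∧ (∀ i, Uni R (U' i)) ∧ Nonempty (Loc R N' ι' U') ∧
    SetC R ι' U' V f

/-- (CG) Claim G. -/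
def CGStmt : Prop := ∀ (R : Type) [Ring R] (N : Type) [AddCommGroup N] [Module R N],
  NoUni R N → Nontrivial N → ∀ (ι : Type) (U : ι → ModuleCat.{0} R), (∀ i, Uni R (U i)) →
  Loc R N ι U → ∀ (Q : Type) [AddCommGroup Q] [Module R Q], (∀ i, Gen R Q (U i)) →
  ∃ i, Sq R (U i) Q ∧ ∃ (α : U i →ₗ[R] N) (β : N →ₗ[R] U i), Function.Injective (β ∘ₗ α)

/-! ## The sequence -/

/-- (PP) For every nonzero summand `B` of `N` and every finite set `T` of indices there are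
`i ∈ O` and `U i → B → U i` with injective composite such that no `b k` with `k ∈ T` is
injective on the image of `U i`. Hypothesis: Claim G for all summands. -/
def PPStmt : Prop := ∀ (R : Type) [Ring R] (N : Type) [AddCommGroup N] [Module R N], SD R N →
  ∀ (ι : Type) (U : ι → ModuleCat.{0} R), (∀ i, Uni R (U i)) → ∀ (b : ∀ i, N →ₗ[R] U i)
  (O : Set ι),
  (∀ (B : Type) [AddCommGroup B] [Module R B], Nontrivial B →
    ∀ (s : B →ₗ[R] N) (t : N →ₗ[R] B), t ∘ₗ s = LinearMap.id →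
    ∃ i ∈ O, ∃ (α : U i →ₗ[R] B) (β : B →ₗ[R] U i), Function.Injective (β ∘ₗ α)) →
  ∀ (T : Finset ι) (B : Type) [AddCommGroup B] [Module R B], Nontrivial B →
    ∀ (s : B →ₗ[R] N) (t : N →ₗ[R] B), t ∘ₗ s = LinearMap.id →
    ∃ i ∈ O, ∃ (α : U i →ₗ[R] B) (β : B →ₗ[R] U i), Function.Injective (β ∘ₗ α) ∧
      ∀ k ∈ T, ¬ Function.Injective (b k ∘ₗ s ∘ₗ α)

/-- (FS) the same for `N` with `α` of finite support. -/
def FSStmt : Prop := ∀ (R : Type) [Ring R] (N : Type) [AddCommGroup N] [Module R N], NoUni R N →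
  ∀ (ι : Type) (U : ι → ModuleCat.{0} R), (∀ i, Uni R (U i)) → ∀ (L : Loc R N ι U) (i : ι)
    (α : U i →ₗ[R] N) (β : N →ₗ[R] U i), Function.Injective (β ∘ₗ α) →
    ∃ α' : U i →ₗ[R] N, Function.Injective (β ∘ₗ α') ∧ {k | L.b k ∘ₗ α' ≠ 0}.Finite ∧
      ∀ k, Function.Injective (L.b k ∘ₗ α') → Function.Injective (L.b k ∘ₗ α)

/-- (SEQ) the sequence, from the conclusion of (PP) and (FS). -/
def SeqStmt : Prop := ∀ (R : Type) [Ring R] (N : Type) [AddCommGroup N] [Module R N],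
  ∀ (ι : Type) (U : ι → ModuleCat.{0} R), (∀ i, Uni R (U i)) → ∀ (L : Loc R N ι U) (O : Set ι),
  (∀ T : Finset ι, ∃ i ∈ O, ∃ (α : U i →ₗ[R] N) (β : N →ₗ[R] U i),
    Function.Injective (β ∘ₗ α) ∧ {k | L.b k ∘ₗ α ≠ 0}.Finite ∧
      ∀ k ∈ T, ¬ Function.Injective (L.b k ∘ₗ α)) →
  ∃ (i : ℕ → ι) (α : ∀ n, U (i n) →ₗ[R] N) (β : ∀ n, N →ₗ[R] U (i n)),
    (∀ n, i n ∈ O) ∧ (∀ n, Function.Injective (β n ∘ₗ α n)) ∧
    (∀ k n, k < n → β n ∘ₗ α k = 0) ∧ ∀ m : N, {n | β n m ≠ 0}.Finite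

/-! ## The limit -/

/-- (SS) -/
def SSStmt : Prop := ∀ (R : Type) [Ring R] (V : Type) [AddCommGroup V] [Module R V]
  (W : Type) [AddCommGroup W] [Module R W], Uni R V → Uni R W → ∀ f : V →ₗ[R] V,
    Function.Injective f → Sq R (V ⧸ LinearMap.range (f ∘ₗ f)) W →
    Sq R W (V ⧸ LinearMap.range f) →
    ∃ c m : W →ₗ[R] W, Function.Surjective c ∧ Function.Injective m ∧ c ∘ₗ m = 0

/-- a tower in `W` -/
structure Tow (R : Type) [Ring R] (W : Type) [AddCommGroup W] [Module R W] where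
  e : ℕ → (W →ₗ[R] W)
  d : ℕ → (W →ₗ[R] W)
  e_inj : ∀ n, Function.Injective (e n)
  d_surj : ∀ n, Function.Surjective (d n)
  de : ∀ n x, d n (e n x) = 0
  ee : ∀ k n, k < n → ∀ x, e n (e k x) = e k x

/-- (TOW) -/
def TowStmt : Prop := ∀ (R : Type) [Ring R] (W : Type) [AddCommGroup W] [Module R W], Uni R W →
  ∀ c m : W →ₗ[R] W, Function.Surjective c → Function.Injective m → c ∘ₗ m = 0 →
  Nonempty (Tow R W)

/-- the union of the tower -/
def Tow.V {R : Type} [Ring R] {W : Type} [AddCommGroup W] [Module R W] (T : Tow R W) :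
    Submodule R W := ⨆ n, LinearMap.range (T.e n)

/-- (LX) Lemma X -/
def LXStmt : Prop := ∀ (R : Type) [Ring R] (W : Type) [AddCommGroup W] [Module R W], Uni R W →
  ∀ (T : Tow R W) (W' : Type) [AddCommGroup W'] [Module R W'], Uni R W' → Sq R W' W → Sq R W W' →
  ∀ n : ℕ, ∃ (p : W →ₗ[R] W') (c : W' →ₗ[R] W'), (∀ x, p (T.e n x) = 0) ∧
    Function.Surjective c ∧ ¬ Function.Injective c ∧ (∀ x, c (p (T.e (n + 2) x)) = 0) ∧
    ∀ δ : T.V →ₗ[R] T.V, (∀ v : T.V, (v : W) ∈ LinearMap.range (T.e (n + 1)) → δ v = 0) →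
      ∃ ρ : W' →ₗ[R] T.V, ∀ v : T.V, (v : W) ∈ LinearMap.range (T.e (n + 2)) →
        ρ (p (v : W)) = δ v

/-- (LIM) -/
def LimStmt : Prop := ∀ (R : Type) [Ring R] (N : Type) [AddCommGroup N] [Module R N], NoUni R N →
  ∀ (W : ℕ → ModuleCat.{0} R), (∀ n, Uni R (W n)) → (∀ n, Sq R (W n) (W 0)) →
  (∀ n, Sq R (W 0) (W n)) → ∀ (α : ∀ n, W n →ₗ[R] N) (β : ∀ n, N →ₗ[R] W n),
    (∀ n, Function.Injective (β n ∘ₗ α n)) → (∀ k n, k < n → β n ∘ₗ α k = 0) →
    (∀ m : N, {n | β n m ≠ 0}.Finite) → Tow R (W 0) → False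

/-! ## The final steps -/

/-- (SDNU) -/
def SDNUStmt : Prop := ∀ (R : Type) [Ring R] (N : Type) [AddCommGroup N] [Module R N], SD R N →
  NoUni R N

/-- (FIN) -/
def MainStmt : Prop := ∀ (R : Type) [Ring R] (N : Type) [AddCommGroup N] [Module R N], SD R N →
  Nontrivial N → ∀ (ι : Type) (U : ι → ModuleCat.{0} R), (∀ i, Uni R (U i)) → Loc R N ι U → False

/-- (CONV) the frozen statement from (FIN). -/
def ConvStmt : Prop := MainStmt →
  ∀ (R : Type) [Ring R] (M : Type) [AddCommGroup M] [Module R M],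
    (∃ (ι : Type) (U : ι → Submodule R M), iSupIndep U ∧ iSup U = ⊤ ∧
       ∀ i, ∀ A B : Submodule R M, A ≤ U i → B ≤ U i → A ≤ B ∨ B ≤ A) →
    ∀ N : Submodule R M, N ≠ ⊥ → (∃ P : Submodule R M, IsCompl N P) →
      ∃ K L : Submodule R M, K ≠ ⊥ ∧ K ⊔ L = N ∧ K ⊓ L = ⊥ ∧
        ∀ A B : Submodule R M, A ⊔ B = K → A ⊓ B = ⊥ → A = ⊥ ∨ B = ⊥

end SER
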