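import Pool.Agent.Helper69_SER.MainAsm
import Pool.Agent.Helper18_SER.Key
import Pool.Agent.Helper18_SER.Elimn
import Pool.Agent.Helper21_SER.Conv
import Pool.Agent.Helper29_SER.Cg
import Pool.Agent.Helper29_SER.Seq
import Pool.Agent.Helper41_SER.Clu
import Pool.Agent.Helper41_SER.RedZ
import Pool.Agent.Helper54_SER.H1
import Pool.Agent.Helper63_SER.Ss
import Pool.Agent.Helper63_SER.Tow
import Pool.Agent.Helper65_SER.Gq
import Pool.Agent.Helper65_SER.Pp
import Pool.Agent.Helper75_SER.Cyc
import Pool.Agent.Helper76_SER.LX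
import Pool.Agent.Helper76_SER.Lim
import Pool.Agent.Helper87_SER.RedNM
import Pool.Agent.Helper87_SER.Elim
import Pool.Agent.Helper8_SER.Basic2
import Pool.Agent.Helper81_SER.Count

/-!
# The final theorem of squad SER
-/

set_option autoImplicit false

namespace SER

/-- the main theorem from the remaining basic statements -/
theorem main_of (hSL1 : SL1Stmt) (hD1q : D1qStmt) (hL1 : L1Stmt) (hL2 : L2Stmt)
    (hCross : CrossStmt) (hCount : CountStmt) : MainStmt := by
  have hElim : ElimStmt := H87E.elim H54.h1 hCross hL1 (H41.redZ H54.h1 H54.theta) H18.rednd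
    (H87.redNM hL1 hL2) H75.cyc
  have hElimN : ElimNStmt := H18.elimn hElim
  have hK : KStmt := H75.k hElimN
  have hKey : KeyStmt := H18.key hElimN
  exact main_asm (H41.clu hK (H75.zp hKey) (H65.gq hKey) hCount) (H29.cg hElimN hK hCount)
    H65.pp H29.seq (H63.ss hSL1 hD1q) H63.tow (H76.lim (H76.lx hL1 hD1q))

/-- (MAIN): a nonzero direct summand of a direct sum of uniserial modules is not
superdecomposable. -/
theorem main_thm : MainStmt :=
  main_of H8.sl1 H8.d1q H8.l1 H8.l2 H8.cross H81.count

end SER
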