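import Pool.Agent.Helper69_SER.Small

/-!
# Assembly of the main theorem of squad SER
-/

set_option autoImplicit false

namespace SER

open Function

/-- (MAIN) -/
theorem main_asm (hClu : CluStmt) (hCG : CGStmt) (hPP : PPStmt) (hSeq : SeqStmt)
    (hSS : SSStmt) (hTow : TowStmt) (hLim : LimStmt) : MainStmt := by
  intro R _ N _ _ hSD hN ι U hU L
  have hNU : NoUni R N := sdnu R N hSD
  obtain ⟨N', s, t, ι', U', V, f, hts, hN', hU', ⟨L'⟩, hC⟩ := hClu R N hNU hN ι U hU L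
  have hSD' : SD R N' := hSD.summand s t hts
  have hNU' : NoUni R N' := hNU.summand s t hts
  obtain ⟨hV, hf, hGen, hSq⟩ := hC
  let O : Set ι' := {i | Sq R (U' i) (V ⧸ LinearMap.range f)}
  have hG : ∀ (B : Type) [AddCommGroup B] [Module R B], Nontrivial B →
      ∀ (s : B →ₗ[R] N') (t : N' →ₗ[R] B), t ∘ₗ s = LinearMap.id →
      ∃ i ∈ O, ∃ (α : U' i →ₗ[R] B) (β : B →ₗ[R] U' i), Function.Injective (β ∘ₗ α) := by
    intro B _ _ hB s t hts
    obtain ⟨i, hi, hab⟩ := hCG R B (hNU'.summand s t hts) hB ι' U' hU' (L'.summand s t hts)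
      (V ⧸ LinearMap.range f) hGen
    exact ⟨i, hi, hab⟩
  have hT : ∀ T : Finset ι', ∃ i ∈ O, ∃ (α : U' i →ₗ[R] N') (β : N' →ₗ[R] U' i),
      Function.Injective (β ∘ₗ α) ∧ {k | L'.b k ∘ₗ α ≠ 0}.Finite ∧
        ∀ k ∈ T, ¬ Function.Injective (L'.b k ∘ₗ α) := by
    intro T
    obtain ⟨i, hi, α, β, hab, hk⟩ := hPP R N' hSD' ι' U' hU' L'.b O hG T N' hN'
      LinearMap.id LinearMap.id rfl
    obtain ⟨α', h1, h2, h3⟩ := fs R N' hNU' ι' U' hU' L' i α β hab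
    exact ⟨i, hi, α', β, h1, h2, fun k hkT hinj => hk k hkT (h3 k hinj)⟩
  obtain ⟨i, α, β, hO, hinj, hzero, hfin⟩ := hSeq R N' ι' U' hU' L' O hT
  have hfq : Sq R (V ⧸ LinearMap.range f) (V ⧸ LinearMap.range (f ∘ₗ f)) := by
    refine Sq.of_surj (Submodule.factor (LinearMap.range_comp_le_range f f)) ?_
    exact Submodule.factor_surjective _
  have hmut : ∀ m n, Sq R (U' (i m)) (U' (i n)) := fun m n =>
    ((hO m).trans hfq).trans (hSq (i n))
  obtain ⟨c, m, hc, hm, hcm⟩ := hSS R V (U' (i 0)) hV (hU' (i 0)) f hf (hSq (i 0)) (hO 0)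
  obtain ⟨T⟩ := hTow R (U' (i 0)) (hU' (i 0)) c m hc hm hcm
  exact hLim R N' hNU' (fun n => U' (i n)) (fun n => hU' (i n)) (fun n => hmut n 0)
    (fun n => hmut 0 n) α β hinj hzero hfin T

end SER
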