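import Pool.Agent.Helper69_SER.Basic

/-!
# SDNU, FS, and restriction of `Loc`, `SD`, `NoUni` to summands
-/

set_option autoImplicit false

namespace SER

open Function

/-- (SDNU) a superdecomposable module has no uniserial direct summand. -/
theorem sdnu : SDNUStmt := by
  intro R _ N _ _ hN W _ _ hW α β hb
  let e : W ≃ₗ[R] W := LinearEquiv.ofBijective (β ∘ₗ α) hb
  obtain ⟨B₁, B₂, hc, h1, h2⟩ := hN W hW.1 α (e.symm.toLinearMap ∘ₗ β) (by
    ext x
    simp only [LinearMap.comp_apply, LinearEquiv.coe_coe, LinearMap.id_apply]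
    rw [LinearEquiv.symm_apply_eq]
    rfl)
  rcases hW.2 B₁ B₂ with h | h
  · apply h1
    have := hc.inf_eq_bot
    rwa [inf_eq_left.2 h] at this
  · apply h2
    have := hc.inf_eq_bot
    rwa [inf_eq_right.2 h] at this

/-- `SD` passes to summands -/
theorem SD.summand {R : Type} [Ring R] {N : Type} [AddCommGroup N] [Module R N]
    {N' : Type} [AddCommGroup N'] [Module R N'] (h : SD R N) (s : N' →ₗ[R] N) (t : N →ₗ[R] N')
    (hts : t ∘ₗ s = LinearMap.id) : SD R N' := by
  intro B _ _ hB s' t' hts'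
  refine h B hB (s ∘ₗ s') (t' ∘ₗ t) ?_
  ext x
  have h1 := LinearMap.congr_fun hts (s' x)
  have h2 := LinearMap.congr_fun hts' x
  simp only [LinearMap.comp_apply, LinearMap.id_apply] at h1 h2 ⊢
  rw [h1, h2]

/-- `NoUni` passes to summands -/
theorem NoUni.summand {R : Type} [Ring R] {N : Type} [AddCommGroup N] [Module R N]
    {N' : Type} [AddCommGroup N'] [Module R N'] (h : NoUni R N) (s : N' →ₗ[R] N)
    (t : N →ₗ[R] N') (hts : t ∘ₗ s = LinearMap.id) : NoUni R N' := by
  intro W _ _ hW α β hb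
  refine h W hW (s ∘ₗ α) (β ∘ₗ t) ?_
  have : (β ∘ₗ t) ∘ₗ s ∘ₗ α = β ∘ₗ α := by
    ext x
    have h1 := LinearMap.congr_fun hts (α x)
    simp only [LinearMap.comp_apply, LinearMap.id_apply] at h1 ⊢
    rw [h1]
  rw [this]
  exact hb

/-- `Loc` passes to summands -/
def Loc.summand {R : Type} [Ring R] {N : Type} [AddCommGroup N] [Module R N]
    {N' : Type} [AddCommGroup N'] [Module R N'] {ι : Type} {U : ι → ModuleCat.{0} R}
    (L : Loc R N ι U) (s : N' →ₗ[R] N) (t : N →ₗ[R] N') (hts : t ∘ₗ s = LinearMap.id) :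
    Loc R N' ι U where
  a := fun i => t ∘ₗ L.a i
  b := fun i => L.b i ∘ₗ s
  fin := fun n => L.fin (s n)
  sum := fun n F hF => by
    have h1 := L.sum (s n) F hF
    have h2 := congrArg t h1
    rw [map_sum] at h2
    have h3 := LinearMap.congr_fun hts n
    simp only [LinearMap.comp_apply, LinearMap.id_apply] at h3 ⊢
    rw [h3] at h2
    exact h2

/-- (FS) -/
theorem fs : FSStmt := by
  intro R _ N _ _ hN ι U hU L i α β hβ
  let f : U i →ₗ[R] U i := β ∘ₗ α
  have hfs : ¬ Surjective f := fun h => hN (U i) (hU i) α β ⟨hβ, h⟩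
  refine ⟨α ∘ₗ f, ?_, ?_, ?_⟩
  · intro x y hxy
    exact hβ (hβ hxy)
  · obtain ⟨t, ht⟩ : ∃ t, t ∉ LinearMap.range f := by
      by_contra hcon
      push Not at hcon
      exact hfs hcon
    have hle : LinearMap.range f ≤ Submodule.span R {t} := by
      rcases (hU i).2 (LinearMap.range f) (Submodule.span R {t}) with h | h
      · exact h
      · exact absurd (h (Submodule.mem_span_singleton_self t)) ht
    refine (L.fin (α t)).subset ?_
    intro k hk
    simp only [Set.mem_setOf_eq] at hk ⊢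
    intro h0
    apply hk
    ext u
    have hu : f u ∈ Submodule.span R {t} := hle ⟨u, rfl⟩
    obtain ⟨r, hr⟩ := Submodule.mem_span_singleton.1 hu
    simp only [LinearMap.comp_apply, LinearMap.zero_apply]
    rw [← hr, map_smul, map_smul, h0, smul_zero]
  · intro k hk
    rw [← LinearMap.comp_assoc] at hk
    exact inj_of_comp (hU i).1 (hU i).2 hk

end SER
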